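import Pool.Agent.Q161.EA.Stm

/-!
# Job FSA of project EA (helper161): the mean value of the local densities of `m`, over `α`
-/

set_option autoImplicit false

namespace Pool.Agent.Q223.EA.FSA

open Finset NumberField
open Pool.Agent.Q161.EA Pool.Agent.Q51.EL
open Pool.Agent.Q161.OD (P1 P2 red)

open Classical in
/-- two coprime periods -/
theorem two (a b : ℕ) (hab : Nat.Coprime a b) (ha : 0 < a) (hb : 0 < b) (p q : ℕ → Prop)
    (hp : ∀ m, p m ↔ p (m % a)) (hq : ∀ m, q m ↔ q (m % b)) :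
    ((range (a * b)).filter (fun m => p m ∧ q m)).card =
      ((range a).filter p).card * ((range b).filter q).card := by
  rw [← Finset.card_product]
  have key : ∀ x y : ℕ, x < a → y < b →
      (Nat.chineseRemainder hab x y : ℕ) % a = x ∧ (Nat.chineseRemainder hab x y : ℕ) % b = y := by
    intro x y hx hy
    have h := (Nat.chineseRemainder hab x y).2
    refine ⟨?_, ?_⟩
    · have h1 := h.1
      unfold Nat.ModEq at h1
      rw [h1, Nat.mod_eq_of_lt hx]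
    · have h1 := h.2
      unfold Nat.ModEq at h1
      rw [h1, Nat.mod_eq_of_lt hy]
  refine Finset.card_bij' (fun m _ => (m % a, m % b))
    (fun z _ => (Nat.chineseRemainder hab z.1 z.2 : ℕ)) ?_ ?_ ?_ ?_
  · intro m hm
    rw [Finset.mem_filter, Finset.mem_range] at hm
    rw [Finset.mem_product, Finset.mem_filter, Finset.mem_filter, Finset.mem_range,
      Finset.mem_range]
    exact ⟨⟨Nat.mod_lt _ ha, (hp m).1 hm.2.1⟩, ⟨Nat.mod_lt _ hb, (hq m).1 hm.2.2⟩⟩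
  · intro z hz
    rw [Finset.mem_product, Finset.mem_filter, Finset.mem_filter, Finset.mem_range,
      Finset.mem_range] at hz
    rw [Finset.mem_filter, Finset.mem_range]
    obtain ⟨⟨h1, h2⟩, h3, h4⟩ := hz
    obtain ⟨h5, h6⟩ := key z.1 z.2 h1 h3
    refine ⟨Nat.chineseRemainder_lt_mul hab _ _ ha.ne' hb.ne', ?_, ?_⟩
    · rw [hp, h5]; exact h2
    · rw [hq, h6]; exact h4
  · intro m hm
    rw [Finset.mem_filter, Finset.mem_range] at hm
    have h1 : m ≡ m % a [MOD a] := (Nat.mod_modEq m a).symm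
    have h2 : m ≡ m % b [MOD b] := (Nat.mod_modEq m b).symm
    have h3 := Nat.chineseRemainder_modEq_unique hab h1 h2
    exact (Nat.ModEq.eq_of_lt_of_lt h3 hm.1
      (Nat.chineseRemainder_lt_mul hab _ _ ha.ne' hb.ne')).symm
  · intro z hz
    rw [Finset.mem_product, Finset.mem_filter, Finset.mem_filter, Finset.mem_range,
      Finset.mem_range] at hz
    obtain ⟨⟨h1, h2⟩, h3, h4⟩ := hz
    obtain ⟨h5, h6⟩ := key z.1 z.2 h1 h3
    exact Prod.ext h5 h6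

open Classical in
/-- several periods -/
theorem rep (a K : ℕ) (p : ℕ → Prop) (hp : ∀ m, p m ↔ p (m % a)) :
    ((range (a * K)).filter p).card = K * ((range a).filter p).card := by
  induction K with
  | zero => simp
  | succ K ih =>
    have h : (fun k => p (a * K + k)) = p := by
      funext k
      apply propext
      rw [hp (a * K + k), Nat.mul_add_mod, ← hp k]
    rw [← Nat.count_eq_card_filter_range, ← Nat.count_eq_card_filter_range, Nat.mul_succ,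
      Nat.count_add]
    rw [← Nat.count_eq_card_filter_range, ← Nat.count_eq_card_filter_range] at ih
    rw [ih, Nat.add_mul, Nat.one_mul]
    congr 1
    simp only [h]

open Classical in
/-- the Chinese remainder theorem, as a count -/
theorem many (P : Finset ℕ) (hP : ∀ l ∈ P, l.Prime) (Q : ℕ → ℕ → Prop)
    (hQ : ∀ l ∈ P, ∀ m, Q l m ↔ Q l (m % l)) :
    ((range (∏ l ∈ P, l)).filter (fun m => ∀ l ∈ P, Q l m)).card =
      ∏ l ∈ P, ((range l).filter (Q l)).card := by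
  induction P using Finset.induction_on with
  | empty => simp
  | insert l P hl ih =>
    have hP' : ∀ t ∈ P, t.Prime := fun t ht => hP t (Finset.mem_insert_of_mem ht)
    have hQ' : ∀ t ∈ P, ∀ m, Q t m ↔ Q t (m % t) := fun t ht => hQ t (Finset.mem_insert_of_mem ht)
    have hlp : l.Prime := hP l (Finset.mem_insert_self _ _)
    rw [Finset.prod_insert hl, Finset.prod_insert hl, ← ih hP' hQ']
    have hco : Nat.Coprime l (∏ t ∈ P, t) := by
      apply Nat.Coprime.prod_right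
      intro t ht
      apply (Nat.coprime_primes hlp (hP' t ht)).2
      rintro rfl
      exact hl ht
    have h2 := two l (∏ t ∈ P, t) hco hlp.pos (Finset.prod_pos fun t ht => (hP' t ht).pos) (Q l)
      (fun m => ∀ t ∈ P, Q t m) (hQ l (Finset.mem_insert_self _ _)) (by
        intro m
        refine forall_congr' fun t => forall_congr' fun ht => ?_
        rw [hQ' t ht m, hQ' t ht (m % ∏ t ∈ P, t),
          Nat.mod_mod_of_dvd _ (Finset.dvd_prod_of_mem (fun t => t) ht)])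
    calc _ = ((range (l * ∏ t ∈ P, t)).filter (fun m => Q l m ∧ ∀ t ∈ P, Q t m)).card := by
          congr 1
          ext m
          simp only [Finset.mem_filter, Finset.forall_mem_insert]
      _ = _ := by convert h2

theorem P1.mono {L : Type} [Field L] [NumberField L] {l : ℕ} {T T' : Set (𝓞 L × ℤ)} (h : T' ⊆ T)
    (hT : P1 l T) : P1 l T' := fun p hp => hT p (h hp)

theorem P2.mono {L : Type} [Field L] [NumberField L] {l : ℕ} {T T' : Set (𝓞 L × ℤ)} (h : T' ⊆ T)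
    (hT : P2 l T) : P2 l T' :=
  ⟨fun p hp q hq => hT.1 p (h hp) q (h hq), fun p hp q hq => hT.2 p (h hp) q (h hq)⟩

/-- the mean value of the local densities of `m`, over `α` -/
theorem fsa : S_COR → S_SAT → S_FSA := by
  classical
  intro hcor hsat L _ _ hn B hB
  obtain ⟨C, hC, h⟩ := hcor L hn B hB
  refine ⟨C, hC, ?_⟩
  intro T hT Y P A hY hP hP2 hA
  have hpos : 0 < ∏ l ∈ P, l := Finset.prod_pos (fun l hl => (hP l hl).1.pos)
  have hKY : Y ≤ (⌈Y⌉₊ : ℝ) := Nat.le_ceil Y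
  have hKpos : 0 < ⌈Y⌉₊ := Nat.ceil_pos.2 (by linarith)
  have hN : Y ≤ (((∏ l ∈ P, l) * ⌈Y⌉₊ : ℕ) : ℝ) := by
    push_cast
    have h1 : (1 : ℝ) ≤ ∏ l ∈ P, (l : ℝ) := by
      have : (1 : ℝ) ≤ ((∏ l ∈ P, l : ℕ) : ℝ) := by exact_mod_cast hpos
      push_cast at this
      exact this
    nlinarith
  have hS : ∀ l ∈ P, P1 l (Sat l T) ∧ P2 l (Sat l T) ∧ T ⊆ Sat l T ∧
      ∀ p p' : 𝓞 L × ℤ, red L l p = red L l p' → p ∈ Sat l T → p' ∈ Sat l T := by
    intro l hl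
    obtain ⟨h1, h2⟩ := hP l hl
    obtain ⟨h3, h4⟩ := hT l h1 h2
    exact hsat L l T h1 h3 h4
  set N : ℕ := (∏ l ∈ P, l) * ⌈Y⌉₊ with hNdef
  set T' : Set (𝓞 L × ℤ) := {p | ∀ l ∈ P, p ∈ Sat l T} with hT'
  obtain ⟨hfin, hcard⟩ := h T' Y (N : ℝ) hY (hY.trans hN) (by
    intro l hl hlB hle
    rw [min_eq_left hN] at hle
    have hlP := hP2 l hl hlB hle
    have hsub : T' ⊆ Sat l T := fun p hp => hp l hlP
    exact ⟨P1.mono hsub (hS l hlP).1, P2.mono hsub (hS l hlP).2.1⟩)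
  rw [min_eq_left hN] at hcard
  set W : Set (𝓞 L × ℤ) :=
    {p ∈ T' | (∀ σ : L →+* ℂ, ‖σ (p.1 : L)‖ ≤ Y) ∧ |(p.2 : ℝ)| ≤ (N : ℝ)} with hW
  -- the count for one `α`
  have hone : ∀ α : 𝓞 L, ((range N).filter (fun m : ℕ => (α, (m : ℤ)) ∈ T')).card =
      ⌈Y⌉₊ * ∏ l ∈ P, om T l α := by
    intro α
    have hQ : ∀ l ∈ P, ∀ m : ℕ, (α, (m : ℤ)) ∈ Sat l T ↔ (α, ((m % l : ℕ) : ℤ)) ∈ Sat l T := by
      intro l hl m
      have hred : red L l (α, (m : ℤ)) = red L l (α, ((m % l : ℕ) : ℤ)) := by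
        unfold red
        simp
      exact ⟨(hS l hl).2.2.2 _ _ hred, (hS l hl).2.2.2 _ _ hred.symm⟩
    have h1 := many P (fun l hl => (hP l hl).1) (fun l m => (α, (m : ℤ)) ∈ Sat l T) hQ
    have h2 := rep (∏ l ∈ P, l) ⌈Y⌉₊ (fun m => ∀ l ∈ P, (α, (m : ℤ)) ∈ Sat l T) (by
      intro m
      refine forall_congr' fun t => forall_congr' fun ht => ?_
      rw [hQ t ht m, hQ t ht (m % ∏ t ∈ P, t),
        Nat.mod_mod_of_dvd _ (Finset.dvd_prod_of_mem (fun t => t) ht)])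
    have h2' : ((range ((∏ l ∈ P, l) * ⌈Y⌉₊)).filter
        (fun m : ℕ => ∀ l ∈ P, (α, (m : ℤ)) ∈ Sat l T)).card =
        ⌈Y⌉₊ * ∏ l ∈ P, ((range l).filter (fun m : ℕ => (α, (m : ℤ)) ∈ Sat l T)).card := by
      rw [← h1]
      convert h2
    have h3 : ∀ l : ℕ, om T l α =
        ((range l).filter (fun m : ℕ => (α, (m : ℤ)) ∈ Sat l T)).card := by
      intro l
      unfold om
      congr
    simp only [h3]
    rw [← h2']
    rw [hNdef]
    congr 1
  -- the lower bound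
  have hlow : ∑ α ∈ A, ⌈Y⌉₊ * ∏ l ∈ P, om T l α ≤ W.ncard := by
    have h1 : ∑ α ∈ A, ⌈Y⌉₊ * ∏ l ∈ P, om T l α =
        (((A.sigma (fun α => (range N).filter (fun m : ℕ => (α, (m : ℤ)) ∈ T'))).image
          (fun z => (z.1, (z.2 : ℤ)))) : Finset (𝓞 L × ℤ)).card := by
      rw [Finset.card_image_of_injective, Finset.card_sigma]
      · exact Finset.sum_congr rfl fun α _ => (hone α).symm
      · rintro ⟨a, m⟩ ⟨a', m'⟩ he
        simp only [Prod.mk.injEq, Nat.cast_inj] at he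
        obtain ⟨rfl, rfl⟩ := he
        rfl
    rw [h1, ← Set.ncard_coe_finset]
    apply Set.ncard_le_ncard _ hfin
    intro z hz
    rw [Finset.mem_coe, Finset.mem_image] at hz
    obtain ⟨⟨a, m⟩, hm, rfl⟩ := hz
    rw [Finset.mem_sigma, Finset.mem_filter, Finset.mem_range] at hm
    obtain ⟨h2, h3, h4⟩ := hm
    refine ⟨h4, hA a h2, ?_⟩
    have : ((m : ℕ) : ℝ) ≤ (N : ℝ) := by exact_mod_cast h3.le
    simpa using this
  have hYlog : 0 ≤ 1 + Real.log Y := by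
    have := Real.log_nonneg hY
    linarith
  have hPi : (0 : ℝ) < ∏ l ∈ P, (l : ℝ) := by
    have : (0 : ℝ) < ((∏ l ∈ P, l : ℕ) : ℝ) := by exact_mod_cast hpos
    push_cast at this
    exact this
  have hKpos' : (0 : ℝ) < (⌈Y⌉₊ : ℝ) := by exact_mod_cast hKpos
  have hlow' : (⌈Y⌉₊ : ℝ) * ∑ α ∈ A, ∏ l ∈ P, (om T l α : ℝ) ≤ (W.ncard : ℝ) := by
    rw [Finset.mul_sum]
    have : ((∑ α ∈ A, ⌈Y⌉₊ * ∏ l ∈ P, om T l α : ℕ) : ℝ) ≤ (W.ncard : ℝ) := by exact_mod_cast hlow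
    push_cast at this
    exact this
  have hNr : (N : ℝ) = (∏ l ∈ P, (l : ℝ)) * (⌈Y⌉₊ : ℝ) := by
    rw [hNdef]; push_cast; rfl
  have hmain : (⌈Y⌉₊ : ℝ) * (∑ α ∈ A, ∏ l ∈ P, (om T l α : ℝ)) * (1 + Real.log Y) ≤
      C * Y ^ Module.finrank ℚ L * ((∏ l ∈ P, (l : ℝ)) * (⌈Y⌉₊ : ℝ)) := by
    rw [← hNr]
    exact (mul_le_mul_of_nonneg_right hlow' hYlog).trans hcard
  have hsum : ∑ α ∈ A, ∏ l ∈ P, (om T l α : ℝ) / l =
      (∑ α ∈ A, ∏ l ∈ P, (om T l α : ℝ)) / ∏ l ∈ P, (l : ℝ) := by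
    rw [Finset.sum_div]
    exact Finset.sum_congr rfl fun α _ => Finset.prod_div_distrib _ _
  rw [hsum, div_mul_eq_mul_div, div_le_iff₀ hPi]
  have h5 : (⌈Y⌉₊ : ℝ) * ((∑ α ∈ A, ∏ l ∈ P, (om T l α : ℝ)) * (1 + Real.log Y)) ≤
      (⌈Y⌉₊ : ℝ) * (C * Y ^ Module.finrank ℚ L * ∏ l ∈ P, (l : ℝ)) := by
    calc (⌈Y⌉₊ : ℝ) * ((∑ α ∈ A, ∏ l ∈ P, (om T l α : ℝ)) * (1 + Real.log Y))
        = (⌈Y⌉₊ : ℝ) * (∑ α ∈ A, ∏ l ∈ P, (om T l α : ℝ)) * (1 + Real.log Y) := by ring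
      _ ≤ C * Y ^ Module.finrank ℚ L * ((∏ l ∈ P, (l : ℝ)) * (⌈Y⌉₊ : ℝ)) := hmain
      _ = (⌈Y⌉₊ : ℝ) * (C * Y ^ Module.finrank ℚ L * ∏ l ∈ P, (l : ℝ)) := by ring
  exact le_of_mul_le_mul_left h5 hKpos'

end Pool.Agent.Q223.EA.FSA
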